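import Pool.Agent.H60.VM.Tr

/-!
# Leibniz algebras of class two are not rigid
-/

set_option autoImplicit false

namespace Pool.H60VM

open Module Pool.H3VG

variable {n : ℕ} {μ : Alg n}

/-- the span of all products -/
noncomputable def Sq (μ : Alg n) : Submodule ℂ (Fin n → ℂ) :=
  Submodule.span ℂ {v | ∃ x y, v = μ x y}

theorem mem_Sq (x y : Fin n → ℂ) : μ x y ∈ Sq μ := Submodule.subset_span ⟨x, y, rfl⟩

/-- a central element which is not a combination of products -/
theorem case_central (hn : 2 ≤ n) (h : Leib μ) (hN : Nilp μ)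
    (hSr : ∀ s ∈ Sq μ, ∀ x, μ x s = 0) (z : Fin n → ℂ) (hzr : ∀ x, μ x z = 0)
    (hzl : ∀ x, μ z x = 0) (hz : z ∉ Sq μ) : Defo μ := by
  obtain ⟨f, hf, hfk⟩ := Submodule.exists_le_ker_of_notMem hz
  have hf1 : ∀ s ∈ Sq μ, f s = 0 := fun s hs => hfk hs
  -- a functional vanishing on products and on `z`
  have hlt : Sq μ ⊔ Submodule.span ℂ {z} < ⊤ := by
    refine lt_of_le_of_ne le_top ?_
    intro htop
    have h0 : ∀ x y, μ x y = 0 := by
      intro x y
      have hy : y ∈ Sq μ ⊔ Submodule.span ℂ {z} := by rw [htop]; trivial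
      obtain ⟨s, hs, w, hw, rfl⟩ := Submodule.mem_sup.mp hy
      obtain ⟨a, rfl⟩ := Submodule.mem_span_singleton.mp hw
      rw [map_add, map_smul, hSr s hs, hzr, smul_zero, add_zero]
    have h1 : Sq μ = ⊥ := by
      rw [Submodule.eq_bot_iff]
      intro x hx
      refine Submodule.span_induction (p := fun x _ => x = 0) ?_ rfl ?_ ?_ hx
      · rintro v ⟨x, y, rfl⟩
        exact h0 x y
      · intro u v _ _ hu hv
        rw [hu, hv, add_zero]
      · intro c u _ hu
        rw [hu, smul_zero]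
    rw [h1, bot_sup_eq] at htop
    have h3 := finrank_span_le_card (R := ℂ) ({z} : Set (Fin n → ℂ))
    rw [htop, finrank_top] at h3
    simp at h3
    omega
  obtain ⟨g, hg, hgk⟩ := Submodule.exists_le_ker_of_lt_top _ hlt
  obtain ⟨e, he⟩ : ∃ e, g e ≠ 0 := by
    by_contra hcon
    push Not at hcon
    exact hg (LinearMap.ext hcon)
  have hgS : ∀ s ∈ Sq μ, g s = 0 := fun s hs => hgk (Submodule.mem_sup_left hs)
  have hgz : g z = 0 := hgk (Submodule.mem_sup_right (Submodule.mem_span_singleton_self z))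
  refine defo_of_D h hN g ((g e)⁻¹ • e) ?_ (f.smulRight z) ?_ ?_ ?_ ?_ ?_
  · rw [map_smul, smul_eq_mul, inv_mul_cancel₀ he]
  · intro x w
    rw [LinearMap.smulRight_apply, map_smul, hzr, smul_zero]
  · intro x
    rw [LinearMap.smulRight_apply, map_smul, hgz, smul_zero]
  · intro x y
    exact hgS _ (mem_Sq x y)
  · intro x y _
    rw [LinearMap.smulRight_apply, LinearMap.smulRight_apply, hf1 _ (mem_Sq x y), zero_smul,
      map_smul, LinearMap.smul_apply, hzl, smul_zero]
  · rw [LinearMap.trace_smulRight]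
    exact hf

variable {d k : ℕ} (φ : (Fin n → ℂ) ≃ₗ[ℂ] (Fin d → ℂ) × (Fin k → ℂ))

/-- many central elements -/
theorem case_many (hd : 1 ≤ d) (hdk : d * d < k + d) (b₀ : Fin d → Fin d → Fin k → ℂ)
    (h : Leib μ) (hN : Nilp μ) (hb₀ : nu φ b₀ = μ) : Defo μ := by
  -- a functional on `ℂ^k` vanishing on all `b₀ i j`, `j ≠ 0`
  let j₀ : Fin d := ⟨0, hd⟩
  let Ψ : (Fin k → ℂ) →ₗ[ℂ] ({q : Fin d × Fin d // q.2 ≠ j₀} → ℂ) :=
    LinearMap.pi fun q => ∑ l, b₀ q.1.1 q.1.2 l • LinearMap.proj l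
  have hΨ : ∀ f q, Ψ f q = ∑ l, b₀ q.1.1 q.1.2 l * f l := by
    intro f q
    change (∑ l, b₀ q.1.1 q.1.2 l • LinearMap.proj l : (Fin k → ℂ) →ₗ[ℂ] ℂ) f = _
    rw [LinearMap.sum_apply]
    rfl
  have hcard : finrank ℂ ({q : Fin d × Fin d // q.2 ≠ j₀} → ℂ) < finrank ℂ (Fin k → ℂ) := by
    rw [Module.finrank_fintype_fun_eq_card, Module.finrank_fintype_fun_eq_card, Fintype.card_fin]
    have h1 : Fintype.card {q : Fin d × Fin d // q.2 ≠ j₀} = d * (d - 1) := by
      let E : {q : Fin d × Fin d // q.2 ≠ j₀} ≃ Fin d × {j : Fin d // j ≠ j₀} :=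
        { toFun := fun q => (q.1.1, ⟨q.1.2, q.2⟩)
          invFun := fun p => ⟨(p.1, p.2.1), p.2.2⟩
          left_inv := fun q => rfl
          right_inv := fun p => rfl }
      rw [Fintype.card_congr E, Fintype.card_prod, Fintype.card_fin]
      congr 1
      rw [Fintype.card_subtype_compl, Fintype.card_fin, Fintype.card_subtype_eq]
    rw [h1]
    obtain ⟨e, rfl⟩ : ∃ e, d = e + 1 := ⟨d - 1, by omega⟩
    simp only [Nat.add_sub_cancel]
    nlinarith
  have hker : LinearMap.ker Ψ ≠ ⊥ := LinearMap.ker_ne_bot_of_finrank_lt hcard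
  obtain ⟨f, hf, hf0⟩ := Submodule.exists_mem_ne_zero_of_ne_bot hker
  have hfq : ∀ i j : Fin d, j ≠ j₀ → ∑ l, b₀ i j l * f l = 0 := by
    intro i j hj
    have h1 := congrFun (LinearMap.mem_ker.mp hf) ⟨(i, j), hj⟩
    rw [hΨ] at h1
    exact h1
  obtain ⟨l₀, hl₀⟩ := Function.ne_iff.mp hf0
  -- the functionals
  let F : (Fin n → ℂ) →ₗ[ℂ] ℂ :=
    (∑ l, f l • LinearMap.proj l) ∘ₗ LinearMap.snd ℂ (Fin d → ℂ) (Fin k → ℂ) ∘ₗ φ.toLinearMap
  have hF : ∀ x, F x = ∑ l, f l * (φ x).2 l := by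
    intro x
    change (∑ l, f l • LinearMap.proj l : (Fin k → ℂ) →ₗ[ℂ] ℂ) (φ x).2 = _
    rw [LinearMap.sum_apply]
    rfl
  let lam : (Fin n → ℂ) →ₗ[ℂ] ℂ :=
    LinearMap.proj j₀ ∘ₗ LinearMap.fst ℂ (Fin d → ℂ) (Fin k → ℂ) ∘ₗ φ.toLinearMap
  have hlam : ∀ x, lam x = (φ x).1 j₀ := fun x => rfl
  let z : Fin n → ℂ := φ.symm (0, Pi.single l₀ 1)
  have hz1 : (φ z).1 = 0 := by
    change (φ (φ.symm (0, Pi.single l₀ 1))).1 = 0
    rw [LinearEquiv.apply_symm_apply]
  have hz2 : (φ z).2 = Pi.single l₀ 1 := by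
    change (φ (φ.symm (0, Pi.single l₀ 1))).2 = _
    rw [LinearEquiv.apply_symm_apply]
  have hmul1 : ∀ x y, (φ (μ x y)).1 = 0 := by
    intro x y
    rw [← hb₀, nu_apply, LinearEquiv.apply_symm_apply]
  have hzl : ∀ x, μ z x = 0 := by
    intro x
    rw [← hb₀, nu_apply, hz1, map_zero, LinearMap.zero_apply]
    exact map_zero φ.symm
  have hzr : ∀ x, μ x z = 0 := by
    intro x
    rw [← hb₀, nu_apply, hz1, map_zero]
    exact map_zero φ.symm
  refine defo_of_D h hN lam (φ.symm (Pi.single j₀ 1, 0)) ?_ (F.smulRight z) ?_ ?_ ?_ ?_ ?_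
  · rw [hlam, LinearEquiv.apply_symm_apply]
    simp
  · intro x w
    rw [LinearMap.smulRight_apply, map_smul, hzr, smul_zero]
  · intro x
    rw [LinearMap.smulRight_apply, map_smul, hlam, hz1, Pi.zero_apply, smul_zero]
  · intro x y
    rw [hlam, hmul1, Pi.zero_apply]
  · intro x y hy
    rw [hlam] at hy
    have h1 : F (μ x y) = 0 := by
      rw [hF, ← hb₀, nu_apply, LinearEquiv.apply_symm_apply]
      simp only [B_apply, Finset.mul_sum]
      rw [Finset.sum_comm]
      refine Finset.sum_eq_zero fun i _ => ?_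
      rw [Finset.sum_comm]
      refine Finset.sum_eq_zero fun j _ => ?_
      by_cases hj : j = j₀
      · rw [hj, hy]
        simp
      · have h2 := hfq i j hj
        calc ∑ l, f l * ((φ x).1 i * (φ y).1 j * b₀ i j l)
            = ((φ x).1 i * (φ y).1 j) * ∑ l, b₀ i j l * f l := by
              rw [Finset.mul_sum]
              exact Finset.sum_congr rfl fun l _ => by ring
          _ = 0 := by rw [h2, mul_zero]
    rw [LinearMap.smulRight_apply, LinearMap.smulRight_apply, h1, zero_smul, map_smul,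
      LinearMap.smul_apply, hzl, smul_zero]
  · rw [LinearMap.trace_smulRight, hF, hz2, Finset.sum_eq_single l₀]
    · simpa using hl₀
    · intro l _ hl
      simp [hl]
    · simp

/-- the family depends continuously on the coefficients -/
theorem continuous_nu : Continuous fun b : Fin d → Fin d → Fin k → ℂ => sc (nu φ b) := by
  refine continuous_pi fun t => ?_
  have h1 : Continuous fun b : Fin d → Fin d → Fin k → ℂ =>
      B b (φ (Pi.single t.1 (1 : ℂ))).1 (φ (Pi.single t.2.1 (1 : ℂ))).1 := by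
    refine continuous_pi fun l => ?_
    simp only [B_apply]
    refine continuous_finsetSum _ fun i _ => continuous_finsetSum _ fun j _ => ?_
    have h2 : Continuous fun b : Fin d → Fin d → Fin k → ℂ => b i j l :=
      (continuous_apply l).comp ((continuous_apply j).comp (continuous_apply i))
    exact continuous_const.mul h2
  have h3 : Continuous fun w : Fin k → ℂ => φ.symm ((0 : Fin d → ℂ), w) :=
    LinearMap.continuous_of_finiteDimensional
      (φ.symm.toLinearMap ∘ₗ LinearMap.inr ℂ (Fin d → ℂ) (Fin k → ℂ))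
  exact (continuous_apply t.2.2).comp (h3.comp h1)

theorem case_few (hd : 1 ≤ d) (hk : 1 ≤ k) (hdk : k + d ≤ d * d)
    (b₀ : Fin d → Fin d → Fin k → ℂ) (h : Leib μ) (hb₀ : nu φ b₀ = μ) : ¬ Rigid μ := by
  intro hR
  obtain ⟨p, hp, hpI⟩ := rigid_poly hR h
  set U : Set (Fin d → Fin d → Fin k → ℂ) := {b | MvPolynomial.eval (sc (nu φ b)) p ≠ 0} with hUd
  have hU : IsOpen U := by
    have h1 : Continuous fun b : Fin d → Fin d → Fin k → ℂ =>
        MvPolynomial.eval (sc (nu φ b)) p :=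
      (MvPolynomial.continuous_eval p).comp (continuous_nu φ)
    exact isOpen_compl_singleton.preimage h1
  have hbU : b₀ ∈ U := by
    change MvPolynomial.eval (sc (nu φ b₀)) p ≠ 0
    rw [hb₀]
    exact hp
  have hrel : ∀ b ∈ U, ∃ (a : (Fin d → ℂ) →ₗ[ℂ] (Fin d → ℂ))
      (c : (Fin k → ℂ) →ₗ[ℂ] (Fin k → ℂ)), ∀ u v, B b u v = c (B b₀ (a u) (a v)) :=
    fun b hb => iso_nu φ hb₀ (hpI _ (leib_nu φ b) hb)
  have hd2 : 2 ≤ d := by
    by_contra hcon
    have : d = 1 := by omega
    subst this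
    omega
  rcases Nat.lt_or_ge 1 k with hk2 | hk2
  · refine dim_case hd ?_ b₀ U hU ⟨b₀, hbU⟩ hrel
    have h1 : k + 2 ≤ d * d := by omega
    obtain ⟨m, rfl⟩ : ∃ m, k = m + 2 := ⟨k - 2, by omega⟩
    nlinarith
  · have hk1 : k = 1 := by omega
    subst hk1
    exact tr_case hd2 b₀ U hU hbU hrel

/-- coordinates adapted to the span of the products -/
theorem exists_coord (S : Submodule ℂ (Fin n → ℂ)) :
    ∃ (d k : ℕ) (φ : (Fin n → ℂ) ≃ₗ[ℂ] (Fin d → ℂ) × (Fin k → ℂ)),
      ∀ x, x ∈ S ↔ (φ x).1 = 0 := by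
  obtain ⟨W, hW⟩ := Submodule.exists_isCompl S
  let e := Submodule.prodEquivOfIsCompl W S hW.symm
  let e1 := (Module.finBasis ℂ W).equivFun
  let e2 := (Module.finBasis ℂ S).equivFun
  refine ⟨_, _, e.symm ≪≫ₗ (LinearEquiv.prodCongr e1 e2), fun x => ?_⟩
  have h1 : ((e.symm ≪≫ₗ (LinearEquiv.prodCongr e1 e2)) x).1 = e1 (e.symm x).1 := rfl
  rw [h1, map_eq_zero_iff e1 e1.injective]
  obtain ⟨⟨w, s⟩, rfl⟩ := e.surjective x
  rw [LinearEquiv.symm_apply_apply]
  have h2 : e (w, s) = (w : Fin n → ℂ) + s := rfl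
  rw [h2]
  constructor
  · intro h
    have h3 : (w : Fin n → ℂ) ∈ S := by
      have := S.sub_mem h s.2
      rwa [add_sub_cancel_right] at this
    have h4 := (Submodule.disjoint_def.mp hW.disjoint) w h3 w.2
    exact Subtype.ext h4
  · intro h
    change w = 0 at h
    rw [h, Submodule.coe_zero, zero_add]
    exact s.2

/-- CLASS TWO -/
theorem class_two (hn : 2 ≤ n) (h : Leib μ) (h3 : ∀ x y z, μ (μ x y) z = 0) : ¬ Rigid μ := by
  have hr : ∀ x y z, μ x (μ y z) = 0 := by
    intro x y z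
    have := h x y z
    rw [h3, h3, zero_add] at this
    exact this.symm
  have hN : Nilp μ := by
    refine ⟨2, fun x y h0 h1 => ?_⟩
    rw [h1 1, h1 0, h3]
  have hSl : ∀ s ∈ Sq μ, ∀ x, μ s x = 0 := by
    intro s hs x
    refine Submodule.span_induction (p := fun s _ => μ s x = 0) ?_ ?_ ?_ ?_ hs
    · rintro s ⟨a, b, rfl⟩
      exact h3 a b x
    · rw [map_zero, LinearMap.zero_apply]
    · intro u v _ _ hu hv
      rw [map_add, LinearMap.add_apply, hu, hv, add_zero]
    · intro c u _ hu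
      rw [map_smul, LinearMap.smul_apply, hu, smul_zero]
  have hSr : ∀ s ∈ Sq μ, ∀ x, μ x s = 0 := by
    intro s hs x
    refine Submodule.span_induction (p := fun s _ => μ x s = 0) ?_ ?_ ?_ ?_ hs
    · rintro s ⟨a, b, rfl⟩
      exact hr x a b
    · rw [map_zero]
    · intro u v _ _ hu hv
      rw [map_add, hu, hv, add_zero]
    · intro c u _ hu
      rw [map_smul, hu, smul_zero]
  by_cases hZ : ∃ z, (∀ x, μ x z = 0) ∧ (∀ x, μ z x = 0) ∧ z ∉ Sq μ
  · obtain ⟨z, hzr, hzl, hz⟩ := hZ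
    exact not_rigid_of_defo h hN (case_central hn h hN hSr z hzr hzl hz)
  · push Not at hZ
    obtain ⟨d, k, φ, hφ⟩ := exists_coord (Sq μ)
    -- the coefficients
    let β : (Fin d → ℂ) →ₗ[ℂ] (Fin d → ℂ) →ₗ[ℂ] (Fin k → ℂ) :=
      LinearMap.mk₂ ℂ (fun u v => (φ (μ (φ.symm (u, 0)) (φ.symm (v, 0)))).2)
        (fun u u' v => by
          have h1 : ((u + u', 0) : (Fin d → ℂ) × (Fin k → ℂ)) = (u, 0) + (u', 0) := by simp
          rw [h1]
          simp only [map_add, LinearMap.add_apply, Prod.snd_add])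
        (fun c u v => by
          have h1 : ((c • u, 0) : (Fin d → ℂ) × (Fin k → ℂ)) = c • (u, 0) := by simp
          rw [h1]
          simp only [map_smul, LinearMap.smul_apply, Prod.smul_snd])
        (fun u v v' => by
          have h1 : ((v + v', 0) : (Fin d → ℂ) × (Fin k → ℂ)) = (v, 0) + (v', 0) := by simp
          rw [h1]
          simp only [map_add, Prod.snd_add])
        (fun c u v => by
          have h1 : ((c • v, 0) : (Fin d → ℂ) × (Fin k → ℂ)) = c • (v, 0) := by simp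
          rw [h1]
          simp only [map_smul, Prod.smul_snd])
    have hβ : ∀ u v, β u v = (φ (μ (φ.symm (u, 0)) (φ.symm (v, 0)))).2 := fun u v => rfl
    let b₀ : Fin d → Fin d → Fin k → ℂ := fun i j l => β (Pi.single i 1) (Pi.single j 1) l
    have hβB : β = B b₀ := by
      refine LinearMap.ext_basis (Pi.basisFun ℂ (Fin d)) (Pi.basisFun ℂ (Fin d)) fun i j => ?_
      rw [Pi.basisFun_apply, Pi.basisFun_apply]
      funext l
      rw [B_single]
    have hb₀ : nu φ b₀ = μ := by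
      refine LinearMap.ext fun x => LinearMap.ext fun y => ?_
      have hx : x - φ.symm ((φ x).1, 0) ∈ Sq μ := by
        rw [hφ, map_sub, LinearEquiv.apply_symm_apply, Prod.fst_sub, sub_self]
      have hy : y - φ.symm ((φ y).1, 0) ∈ Sq μ := by
        rw [hφ, map_sub, LinearEquiv.apply_symm_apply, Prod.fst_sub, sub_self]
      have h4 : μ x y = μ (φ.symm ((φ x).1, 0)) (φ.symm ((φ y).1, 0)) := by
        have e1 := hSl _ hx y
        have e2 := hSr _ hy (φ.symm ((φ x).1, 0))
        rw [map_sub, LinearMap.sub_apply, sub_eq_zero] at e1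
        rw [map_sub, sub_eq_zero] at e2
        rw [e1, e2]
      rw [nu_apply, ← hβB, hβ, ← h4]
      apply φ.injective
      rw [LinearEquiv.apply_symm_apply]
      refine Prod.ext ?_ rfl
      exact ((hφ _).mp (mem_Sq x y)).symm
    have hne : ∃ v : Fin n → ℂ, v ≠ 0 := by
      refine ⟨fun _ => 1, fun hcon => ?_⟩
      have := congrFun hcon ⟨0, by omega⟩
      simp at this
    have hd : 1 ≤ d := by
      by_contra hcon
      have hd0 : d = 0 := by omega
      subst hd0
      have h5 : ∀ x, x ∈ Sq μ := fun x => (hφ x).mpr (Subsingleton.elim _ _)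
      have h6 : ∀ x y, μ x y = 0 := fun x y => hSl x (h5 x) y
      obtain ⟨v, hv⟩ := hne
      apply hv
      refine Submodule.span_induction (p := fun v _ => v = 0) ?_ rfl ?_ ?_ (h5 v)
      · rintro v ⟨x, y, rfl⟩
        exact h6 x y
      · intro u v _ _ hu hv
        rw [hu, hv, add_zero]
      · intro c u _ hu
        rw [hu, smul_zero]
    have hk : 1 ≤ k := by
      by_contra hcon
      have hk0 : k = 0 := by omega
      subst hk0
      have h6 : ∀ x ∈ Sq μ, x = 0 := by
        intro x hx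
        apply φ.injective
        rw [map_zero]
        exact Prod.ext ((hφ x).mp hx) (Subsingleton.elim _ _)
      have h7 : ∀ x y, μ x y = 0 := fun x y => h6 _ (mem_Sq x y)
      obtain ⟨v, hv⟩ := hne
      exact hv (h6 v (hZ v (fun x => h7 x v) (fun x => h7 v x)))
    rcases Nat.lt_or_ge (d * d) (k + d) with hdk | hdk
    · exact not_rigid_of_defo h hN (case_many φ hd hdk b₀ h hN hb₀)
    · exact case_few φ hd hk hdk b₀ h hb₀

end Pool.H60VM
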