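import Pool.Agent.H3.VG.Main

/-!
# A criterion for non-rigidity of nilpotent Leibniz algebras

`D` a derivation, `c` a linear map with `c(xy) = c(x)y - c(y)x`, `A(D-c) = 0`,
`Dc = cD = cc`, `lam` a functional vanishing on all products with `lam D = lam c = al * lam`,
`D` not nilpotent on `ker lam`: then the products `xy + t (lam(y) D(x) - lam(x) c(y))` are Leibniz
products and not nilpotent for `t ≠ 0`.
-/

set_option autoImplicit false

namespace Pool.H60VM

open Module Pool.H3VG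

variable {n : ℕ} {μ : Alg n}

/-- the direction `lam y • D x - lam x • c y` -/
noncomputable def th (lam : (Fin n → ℂ) →ₗ[ℂ] ℂ) (D c : (Fin n → ℂ) →ₗ[ℂ] (Fin n → ℂ)) : Alg n :=
  tw lam D - (tw lam c).flip

theorem th_apply (lam : (Fin n → ℂ) →ₗ[ℂ] ℂ) (D c : (Fin n → ℂ) →ₗ[ℂ] (Fin n → ℂ))
    (x y : Fin n → ℂ) : th lam D c x y = lam y • D x - lam x • c y := rfl

/-- the data of the criterion -/
structure Datum (μ : Alg n) (lam : (Fin n → ℂ) →ₗ[ℂ] ℂ) (D c : (Fin n → ℂ) →ₗ[ℂ] (Fin n → ℂ))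
    (al : ℂ) : Prop where
  hD : ∀ x y, D (μ x y) = μ (D x) y + μ x (D y)
  hc : ∀ x y, c (μ x y) = μ (c x) y - μ (c y) x
  hE : ∀ x y, μ x (D y) = μ x (c y)
  hl : ∀ x y, lam (μ x y) = 0
  hlD : ∀ x, lam (D x) = al * lam x
  hlc : ∀ x, lam (c x) = al * lam x
  h1 : ∀ x, D (c x) = c (c x)
  h2 : ∀ x, c (D x) = c (c x)

theorem leib_th (h : Leib μ) {lam : (Fin n → ℂ) →ₗ[ℂ] ℂ} {D c : (Fin n → ℂ) →ₗ[ℂ] (Fin n → ℂ)}
    {al : ℂ} (H : Datum μ lam D c al) (t : ℂ) : Leib (μ + t • th lam D c) := by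
  intro x y z
  have hmul : ∀ a b, (μ + t • th lam D c) a b = μ a b + t • (lam b • D a - lam a • c b) :=
    fun a b => rfl
  have hlt : ∀ a b, lam (μ a b + t • (lam b • D a - lam a • c b)) = 0 := by
    intro a b
    simp only [map_add, map_sub, map_smul, H.hl, H.hlD, H.hlc, smul_eq_mul]
    ring
  rw [hmul x y, hmul x z, hmul y z, hmul _ z, hmul _ y, hmul x, hlt, hlt, hlt]
  have e1 := h x y z
  have e2 := H.hD x y
  have e3 := H.hD x z
  have e4 := H.hc y z
  have e5 := H.hE x y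
  have e6 := H.hE x z
  have e7 := H.h1 y
  have e8 := H.h2 y
  have e9 := H.h1 z
  simp only [map_add, map_sub, map_smul, LinearMap.add_apply, LinearMap.sub_apply,
    LinearMap.smul_apply, zero_smul, e1, e2, e3, e4, e5, e6, e7, e8, e9]
  module

/-- the lower central series -/
noncomputable def F (μ : Alg n) : ℕ → Submodule ℂ (Fin n → ℂ)
  | 0 => ⊤
  | (i + 1) => Submodule.span ℂ {v | ∃ x ∈ F μ i, ∃ y, v = μ x y}

theorem mul_F (i : ℕ) {x : Fin n → ℂ} (hx : x ∈ F μ i) (y : Fin n → ℂ) : μ x y ∈ F μ (i + 1) :=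
  Submodule.subset_span ⟨x, hx, y, rfl⟩

theorem F_le (i : ℕ) : F μ (i + 1) ≤ F μ i := by
  induction i with
  | zero => exact le_top
  | succ i ih =>
    refine Submodule.span_mono ?_
    rintro v ⟨x, hx, y, rfl⟩
    exact ⟨x, ih hx, y, rfl⟩

theorem F_lp (i : ℕ) : F μ i ≤ Submodule.span ℂ {v | ∃ x, v = lp μ x i} := by
  induction i with
  | zero =>
    intro v _
    exact Submodule.subset_span ⟨fun _ => v, rfl⟩
  | succ i ih =>
    refine Submodule.span_le.mpr ?_
    rintro v ⟨a, ha, b, rfl⟩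
    refine Submodule.span_induction (p := fun a _ => μ a b ∈
      Submodule.span ℂ {v | ∃ x, v = lp μ x (i + 1)}) ?_ ?_ ?_ ?_ (ih ha)
    · rintro a ⟨x, rfl⟩
      obtain ⟨x', hx'⟩ := lp_extend μ x i b
      exact Submodule.subset_span ⟨x', hx'.symm⟩
    · rw [map_zero, LinearMap.zero_apply]; exact Submodule.zero_mem _
    · intro u v _ _ hu hv
      rw [map_add, LinearMap.add_apply]
      exact Submodule.add_mem _ hu hv
    · intro c u _ hu
      rw [map_smul, LinearMap.smul_apply]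
      exact Submodule.smul_mem _ c hu

theorem F_bot (h : Nilp μ) : ∃ m, ∀ x ∈ F μ m, x = 0 := by
  obtain ⟨m, hm⟩ := nilp_lp h
  refine ⟨m, fun x hx => ?_⟩
  have h1 := F_lp m hx
  have h2 : {v : Fin n → ℂ | ∃ x, v = lp μ x m} ⊆ {0} := by
    rintro v ⟨x, rfl⟩
    exact hm x
  have h3 := Submodule.span_mono h2 h1
  rw [Submodule.span_zero_singleton] at h3
  exact (Submodule.mem_bot ℂ).mp h3

theorem D_F {D : (Fin n → ℂ) →ₗ[ℂ] (Fin n → ℂ)}
    (hD : ∀ x y, D (μ x y) = μ (D x) y + μ x (D y)) (i : ℕ) :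
    ∀ x ∈ F μ i, D x ∈ F μ i := by
  induction i with
  | zero => intro x _; trivial
  | succ i ih =>
    intro x hx
    refine Submodule.span_induction (p := fun a _ => D a ∈ F μ (i + 1)) ?_ ?_ ?_ ?_ hx
    · rintro v ⟨a, ha, b, rfl⟩
      rw [hD]
      exact Submodule.add_mem _ (mul_F i (ih a ha) b) (mul_F i ha _)
    · rw [map_zero]; exact Submodule.zero_mem _
    · intro u v _ _ hu hv
      rw [map_add]
      exact Submodule.add_mem _ hu hv
    · intro c u _ hu
      rw [map_smul]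
      exact Submodule.smul_mem _ c hu

/-- if some deformed product with `t ≠ 0` is nilpotent then `D` is nilpotent on `ker lam` -/
theorem nilp_D (hN : Nilp μ) {lam : (Fin n → ℂ) →ₗ[ℂ] ℂ}
    {D c : (Fin n → ℂ) →ₗ[ℂ] (Fin n → ℂ)} {al : ℂ} (H : Datum μ lam D c al)
    (e : Fin n → ℂ) (he : lam e = 1) {t : ℂ} (ht : t ≠ 0) (hNt : Nilp (μ + t • th lam D c)) :
    ∃ m : ℕ, ∀ x, lam x = 0 → (D ^ m) x = 0 := by
  obtain ⟨k, hk⟩ := rm_nilp hNt e
  set R := rm (μ + t • th lam D c) e with hR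
  have hRx : ∀ x, lam x = 0 → R x = μ x e + t • D x := by
    intro x hx
    rw [hR, rm_apply, LinearMap.add_apply, LinearMap.add_apply, LinearMap.smul_apply,
      LinearMap.smul_apply, th_apply, he, hx, one_smul, zero_smul, sub_zero]
  have hlamD : ∀ x, lam x = 0 → lam (D x) = 0 := fun x hx => by rw [H.hlD, hx, mul_zero]
  have hlamDj : ∀ j : ℕ, ∀ x, lam x = 0 → lam ((D ^ j) x) = 0 := by
    intro j
    induction j with
    | zero => intro x hx; exact hx
    | succ j ih =>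
      intro x hx
      rw [pow_succ', Module.End.mul_apply]
      exact hlamD _ (ih x hx)
  have hDj : ∀ (i j : ℕ), ∀ x ∈ F μ i, (D ^ j) x ∈ F μ i := by
    intro i j
    induction j with
    | zero => intro x hx; exact hx
    | succ j ih =>
      intro x hx
      rw [pow_succ', Module.End.mul_apply]
      exact D_F H.hD i _ (ih x hx)
  have step : ∀ (i : ℕ) (x : Fin n → ℂ), lam x = 0 → x ∈ F μ i → ∀ j : ℕ,
      ∃ f ∈ F μ (i + 1), lam f = 0 ∧ (R ^ j) x = t ^ j • (D ^ j) x + f := by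
    intro i x hx hxF j
    induction j with
    | zero => exact ⟨0, Submodule.zero_mem _, map_zero _, by simp⟩
    | succ j ih =>
      obtain ⟨f, hf, hlf, e1⟩ := ih
      have hl2 : lam (t ^ j • (D ^ j) x + f) = 0 := by
        rw [map_add, map_smul, hlamDj j x hx, hlf, smul_zero, add_zero]
      refine ⟨t ^ j • μ ((D ^ j) x) e + μ f e + t • D f, ?_, ?_, ?_⟩
      · refine Submodule.add_mem _ (Submodule.add_mem _ (Submodule.smul_mem _ _
          (mul_F i (hDj i j x hxF) e)) (mul_F i (F_le i hf) e))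
          (Submodule.smul_mem _ _ (D_F H.hD (i + 1) f hf))
      · rw [map_add, map_add, map_smul, map_smul, H.hl, H.hl, hlamD f hlf, smul_zero, smul_zero,
          add_zero, add_zero]
      · rw [pow_succ' R, Module.End.mul_apply, e1, hRx _ hl2, pow_succ' D, Module.End.mul_apply]
        simp only [map_add, map_smul, LinearMap.add_apply, LinearMap.smul_apply]
        rw [pow_succ]
        module
  have key : ∀ i : ℕ, ∀ x, lam x = 0 → (D ^ (k * i)) x ∈ F μ i := by
    intro i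
    induction i with
    | zero => intro x _; trivial
    | succ i ih =>
      intro x hx
      obtain ⟨f, hf, -, e1⟩ := step i ((D ^ (k * i)) x) (hlamDj _ x hx) (ih x hx) k
      rw [hk, LinearMap.zero_apply] at e1
      have e2 : (D ^ k) ((D ^ (k * i)) x) = (-(t ^ k)⁻¹) • f := by
        have h3 : f = -(t ^ k • (D ^ k) ((D ^ (k * i)) x)) := (neg_eq_of_add_eq_zero_right e1.symm).symm
        rw [h3, smul_neg, neg_smul, neg_neg, smul_smul, inv_mul_cancel₀ (pow_ne_zero k ht), one_smul]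
      have e3 : (D ^ (k * (i + 1))) x = (D ^ k) ((D ^ (k * i)) x) := by
        rw [← Module.End.mul_apply, ← pow_add]
        congr 2
        ring
      rw [e3, e2]
      exact Submodule.smul_mem _ _ hf
  obtain ⟨m, hm⟩ := F_bot hN
  exact ⟨k * m, fun x hx => hm _ (key m x hx)⟩

/-- the criterion -/
theorem defo_of_datum (h : Leib μ) (hN : Nilp μ) {lam : (Fin n → ℂ) →ₗ[ℂ] ℂ}
    {D c : (Fin n → ℂ) →ₗ[ℂ] (Fin n → ℂ)} {al : ℂ} (H : Datum μ lam D c al) (hlam : lam ≠ 0)
    (hn : ∀ m : ℕ, ∃ x, lam x = 0 ∧ (D ^ m) x ≠ 0) : Defo μ := by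
  obtain ⟨e0, he0⟩ : ∃ e, lam e ≠ 0 := by
    by_contra hcon
    push Not at hcon
    exact hlam (LinearMap.ext hcon)
  have he : lam ((lam e0)⁻¹ • e0) = 1 := by
    rw [map_smul, smul_eq_mul, inv_mul_cancel₀ he0]
  refine ⟨th lam D c, leib_th h H, fun t ht hNt => ?_⟩
  obtain ⟨m, hm⟩ := nilp_D hN H _ he ht hNt
  obtain ⟨x, hx, hx2⟩ := hn m
  exact hx2 (hm x hx)

end Pool.H60VM
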