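import Pool.Agent.H60.VM.Norm

/-!
# The dimension count
-/

set_option autoImplicit false

namespace Pool.H60VM

open Module Pool.H3VG

variable {d k : ℕ}

/-- coefficients of the transformed bilinear map -/
noncomputable def tr (b₀ : Fin d → Fin d → Fin k → ℂ) (A : Fin d × Fin d → ℂ)
    (C : Fin k × Fin k → ℂ) : Fin d → Fin d → Fin k → ℂ :=
  fun i j l => ∑ i', ∑ j', ∑ l', C (l, l') * A (i', i) * A (j', j) * b₀ i' j' l'

theorem tr_of_rel {b₀ b : Fin d → Fin d → Fin k → ℂ} (a : (Fin d → ℂ) →ₗ[ℂ] (Fin d → ℂ))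
    (c : (Fin k → ℂ) →ₗ[ℂ] (Fin k → ℂ)) (h : ∀ u v, B b u v = c (B b₀ (a u) (a v))) :
    b = tr b₀ (fun q => a (Pi.single q.2 1) q.1) (fun q => c (Pi.single q.2 1) q.1) := by
  funext i j l
  rw [← B_single b i j l, h]
  have h1 : ∀ w : Fin k → ℂ, c w l = ∑ l', c (Pi.single l' 1) l * w l' := by
    intro w
    have h2 : w = ∑ l', w l' • (Pi.single l' (1 : ℂ) : Fin k → ℂ) := by
      ext m
      rw [Finset.sum_apply]
      simp [Pi.single_apply]
    conv_lhs => rw [h2]
    rw [map_sum, Finset.sum_apply]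
    refine Finset.sum_congr rfl fun l' _ => ?_
    rw [map_smul, Pi.smul_apply, smul_eq_mul, mul_comm]
  rw [h1]
  simp only [B_apply, tr]
  rw [Finset.sum_congr rfl (fun l' _ => Finset.mul_sum _ _ _), Finset.sum_comm]
  refine Finset.sum_congr rfl fun i' _ => ?_
  rw [Finset.sum_congr rfl (fun l' _ => Finset.mul_sum _ _ _), Finset.sum_comm]
  refine Finset.sum_congr rfl fun j' _ => ?_
  refine Finset.sum_congr rfl fun l' _ => ?_
  ring

theorem tr_scale (b₀ : Fin d → Fin d → Fin k → ℂ) (A : Fin d × Fin d → ℂ)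
    (C : Fin k × Fin k → ℂ) {s : ℂ} (hs : s ≠ 0) :
    tr b₀ A C = tr b₀ (fun q => s⁻¹ * A q) (fun q => s ^ 2 * C q) := by
  funext i j l
  simp only [tr]
  refine Finset.sum_congr rfl fun i' _ => Finset.sum_congr rfl fun j' _ =>
    Finset.sum_congr rfl fun l' _ => ?_
  field_simp

/-- the chart with one entry normalised -/
noncomputable def chart (b₀ : Fin d → Fin d → Fin k → ℂ) (q₀ : Fin d × Fin d)
    (X : ({q : Fin d × Fin d // q ≠ q₀} → ℂ) × (Fin k × Fin k → ℂ)) :
    Fin d → Fin d → Fin k → ℂ :=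
  tr b₀ (fun q => if h : q ≠ q₀ then X.1 ⟨q, h⟩ else 1) X.2

theorem contDiff_chart (b₀ : Fin d → Fin d → Fin k → ℂ) (q₀ : Fin d × Fin d) :
    ContDiff ℝ 1 (chart b₀ q₀) := by
  have hA : ∀ q : Fin d × Fin d, ContDiff ℝ 1
      (fun X : ({q : Fin d × Fin d // q ≠ q₀} → ℂ) × (Fin k × Fin k → ℂ) =>
        (if h : q ≠ q₀ then X.1 ⟨q, h⟩ else 1 : ℂ)) := by
    intro q
    by_cases h : q ≠ q₀
    · simp only [dif_pos h]
      have h1 : ContDiff ℝ 1
        (fun X : ({q : Fin d × Fin d // q ≠ q₀} → ℂ) × (Fin k × Fin k → ℂ) => X.1) := contDiff_fst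
      exact contDiff_pi.mp h1 ⟨q, h⟩
    · simp only [dif_neg h]
      exact contDiff_const
  have hC : ∀ q : Fin k × Fin k, ContDiff ℝ 1
      (fun X : ({q : Fin d × Fin d // q ≠ q₀} → ℂ) × (Fin k × Fin k → ℂ) => X.2 q) := by
    intro q
    exact contDiff_pi.mp contDiff_snd q
  refine contDiff_pi.mpr fun i => contDiff_pi.mpr fun j => contDiff_pi.mpr fun l => ?_
  simp only [chart, tr]
  refine ContDiff.sum fun i' _ => ContDiff.sum fun j' _ => ContDiff.sum fun l' _ => ?_
  exact (((hC _).mul (hA _)).mul (hA _)).mul contDiff_const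

theorem finrank_dom (q₀ : Fin d × Fin d) :
    finrank ℝ (({q : Fin d × Fin d // q ≠ q₀} → ℂ) × (Fin k × Fin k → ℂ))
      = (d * d - 1) * 2 + (k * k) * 2 := by
  rw [Module.finrank_prod, Module.finrank_pi_fintype, Module.finrank_pi_fintype]
  simp only [Complex.finrank_real_complex, Finset.sum_const, Finset.card_univ, smul_eq_mul]
  rw [Fintype.card_prod, Fintype.card_fin]
  congr 2
  rw [Fintype.card_subtype_compl, Fintype.card_prod, Fintype.card_fin, Fintype.card_subtype_eq]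

theorem finrank_cod : finrank ℝ (Fin d → Fin d → Fin k → ℂ) = d * d * k * 2 := by
  simp only [Module.finrank_pi_fintype, Complex.finrank_real_complex, Finset.sum_const,
    Finset.card_univ, smul_eq_mul, Fintype.card_fin]
  ring

/-- the transforms of `b₀` have no interior -/
theorem dim_case (hd : 1 ≤ d) (hdk : d * d + k * k ≤ d * d * k) (b₀ : Fin d → Fin d → Fin k → ℂ)
    (U : Set (Fin d → Fin d → Fin k → ℂ)) (hU : IsOpen U) (hne : U.Nonempty)
    (hrel : ∀ b ∈ U, ∃ (a : (Fin d → ℂ) →ₗ[ℂ] (Fin d → ℂ)) (c : (Fin k → ℂ) →ₗ[ℂ] (Fin k → ℂ)),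
      ∀ u v, B b u v = c (B b₀ (a u) (a v))) : False := by
  set S : Set (Fin d → Fin d → Fin k → ℂ) :=
    (⋃ q₀ : Fin d × Fin d, Set.range (chart (k := k) b₀ q₀)) ∪ {0} with hS
  have hUS : U ⊆ S := by
    intro b hb
    obtain ⟨a, c, h⟩ := hrel b hb
    have h1 := tr_of_rel a c h
    by_cases hA : ∀ q : Fin d × Fin d, a (Pi.single q.2 1) q.1 = 0
    · right
      rw [Set.mem_singleton_iff, h1]
      have hA' : ∀ i' i, a (Pi.single i 1) i' = 0 := fun i' i => hA (i', i)
      funext i j l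
      simp only [tr, hA', mul_zero, zero_mul, Finset.sum_const_zero]
      rfl
    · left
      push Not at hA
      obtain ⟨q₀, hq₀⟩ := hA
      rw [Set.mem_iUnion]
      refine ⟨q₀, ?_⟩
      rw [tr_scale _ _ _ hq₀] at h1
      refine ⟨(fun q => (a (Pi.single q₀.2 1) q₀.1)⁻¹ * a (Pi.single q.1.2 1) q.1.1,
        fun q => (a (Pi.single q₀.2 1) q₀.1) ^ 2 * c (Pi.single q.2 1) q.1), ?_⟩
      rw [h1, chart]
      congr 1
      funext q
      by_cases hq : q ≠ q₀
      · rw [dif_pos hq]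
      · rw [dif_neg hq]
        push Not at hq
        rw [hq, inv_mul_cancel₀ hq₀]
  have hdim : dimH S < finrank ℝ (Fin d → Fin d → Fin k → ℂ) := by
    have hpos : 1 ≤ d * d := Nat.mul_pos hd hd
    have hk : 1 ≤ k := by
      rcases Nat.eq_zero_or_pos k with h | h
      · rw [h] at hdk
        omega
      · exact h
    rw [hS, dimH_union, dimH_iUnion, dimH_singleton]
    refine max_lt ?_ ?_
    · refine lt_of_le_of_lt (b := (((d * d - 1) * 2 + (k * k) * 2 : ℕ) : ENNReal)) ?_ ?_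
      · refine iSup_le fun q₀ => ?_
        have h2 := (contDiff_chart (k := k) b₀ q₀).dimH_range_le
        rwa [finrank_dom] at h2
      · rw [finrank_cod]
        norm_cast
        omega
    · rw [finrank_cod]
      norm_cast
      have : 1 ≤ d * d * k := Nat.mul_pos hpos hk
      omega
  have hdense := dense_compl_of_dimH_lt_finrank hdim
  obtain ⟨x, hx1, hx2⟩ := hdense.inter_open_nonempty U hU hne
  exact hx2 (hUS hx1)

end Pool.H60VM
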