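import Pool.Agent.H60.VM.Crit

/-!
# Leibniz algebras of metric type

`xy + yx` is a multiple of `z` for all `x, y`, and `xy + yx = 0` for all `y` only if `x` is a
multiple of `z`.
-/

set_option autoImplicit false

namespace Pool.H60VM

open Module Pool.H3VG

variable {n : ℕ} {μ : Alg n}

theorem exists_functional {z : Fin n → ℂ} (hz : z ≠ 0) :
    ∃ ze : (Fin n → ℂ) →ₗ[ℂ] ℂ, ze z = 1 := by
  obtain ⟨i, hi⟩ := Function.ne_iff.mp hz
  refine ⟨(z i)⁻¹ • LinearMap.proj i, ?_⟩
  rw [LinearMap.smul_apply, LinearMap.proj_apply, smul_eq_mul]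
  exact inv_mul_cancel₀ hi

/-- the data of a metric type product: `z ≠ 0`, all `xy + yx` in `ℂ z`, nondegenerate mod `z` -/
structure Met (μ : Alg n) (z : Fin n → ℂ) : Prop where
  h0 : z ≠ 0
  ha : ∀ x y, ∃ c : ℂ, μ x y + μ y x = c • z
  hb : ∀ x, (∀ y, μ x y + μ y x = 0) → ∃ c : ℂ, x = c • z

/-- `z` is a multiple of some `xy + yx` -/
theorem Met.exists_sym {z : Fin n → ℂ} (H : Met μ z) (hn : 2 ≤ n) :
    ∃ x y, ∃ c : ℂ, z = c • (μ x y + μ y x) := by
  by_contra hcon
  push Not at hcon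
  have h1 : ∀ x y, μ x y + μ y x = 0 := by
    intro x y
    obtain ⟨c, hc⟩ := H.ha x y
    by_cases h : c = 0
    · rw [hc, h, zero_smul]
    · exfalso
      apply hcon x y c⁻¹
      rw [hc, smul_smul, inv_mul_cancel₀ h, one_smul]
  have h2 : (⊤ : Submodule ℂ (Fin n → ℂ)) ≤ Submodule.span ℂ {z} := by
    intro x _
    obtain ⟨c, rfl⟩ := H.hb x (fun y => h1 x y)
    exact Submodule.smul_mem _ _ (Submodule.mem_span_singleton_self z)
  have h3 := Submodule.finrank_mono h2
  have h4 := finrank_span_le_card (R := ℂ) ({z} : Set (Fin n → ℂ))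
  rw [finrank_top] at h3
  simp at h3 h4
  omega

theorem Met.right {z : Fin n → ℂ} (H : Met μ z) (hn : 2 ≤ n) (h : Leib μ) (x : Fin n → ℂ) :
    μ x z = 0 := by
  obtain ⟨a, b, c, hc⟩ := H.exists_sym hn
  have h1 := symm_mem h a b
  rw [hc, map_smul, h1 x, smul_zero]

theorem Met.left {z : Fin n → ℂ} (H : Met μ z) (hn : 2 ≤ n) (h : Leib μ) (hN : Nilp μ)
    (x : Fin n → ℂ) : μ z x = 0 := by
  obtain ⟨k, hk⟩ := H.ha z x
  rw [H.right hn h x, add_zero] at hk
  have hpow : ∀ j : ℕ, ((rm μ x) ^ j) z = k ^ j • z := by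
    intro j
    induction j with
    | zero => simp
    | succ j ih =>
      rw [pow_succ', Module.End.mul_apply, ih, map_smul, rm_apply, hk, smul_smul, pow_succ]
  obtain ⟨m, hm⟩ := rm_nilp hN x
  have h1 := hpow m
  rw [hm, LinearMap.zero_apply] at h1
  have h2 : k ^ m = 0 := by
    rcases smul_eq_zero.mp h1.symm with h2 | h2
    · exact h2
    · exact absurd h2 H.h0
  have h3 : k = 0 := by
    by_contra hne
    exact pow_ne_zero m hne h2
  rw [hk, h3, zero_smul]

/-- the operator `c`: `ze (c y) = 0` and `x (c y) + (c y) x = ze (x y) • z` -/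
theorem Met.exists_c {z : Fin n → ℂ} (H : Met μ z) (hn : 2 ≤ n) (h : Leib μ) (hN : Nilp μ)
    (ze : (Fin n → ℂ) →ₗ[ℂ] ℂ) (hze : ze z = 1) :
    ∃ c : (Fin n → ℂ) →ₗ[ℂ] (Fin n → ℂ), (∀ y, ze (c y) = 0) ∧
      ∀ x y, μ x (c y) + μ (c y) x = ze (μ x y) • z := by
  have hsym : ∀ x y, μ x y + μ y x = ze (μ x y + μ y x) • z := by
    intro x y
    obtain ⟨k, hk⟩ := H.ha x y
    rw [hk, map_smul, hze, smul_eq_mul, mul_one]
  -- the form `S' (x, u) = ze (x u + u x) + ze x * ze u`
  set Sf : (Fin n → ℂ) →ₗ[ℂ] ((Fin n → ℂ) →ₗ[ℂ] ℂ) :=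
    (LinearMap.mk₂ ℂ (fun u x => ze (μ x u + μ u x) + ze x * ze u)
      (fun u u' x => by simp only [map_add, LinearMap.add_apply]; ring)
      (fun c u x => by simp only [map_add, map_smul, LinearMap.smul_apply, smul_eq_mul]; ring)
      (fun u x x' => by simp only [map_add, LinearMap.add_apply]; ring)
      (fun c u x => by simp only [map_add, map_smul, LinearMap.smul_apply, smul_eq_mul]; ring))
    with hSf
  have hSfa : ∀ u x, Sf u x = ze (μ x u + μ u x) + ze x * ze u := fun u x => rfl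
  have hinj : Function.Injective Sf := by
    rw [← LinearMap.ker_eq_bot, Submodule.eq_bot_iff]
    intro u hu
    rw [LinearMap.mem_ker] at hu
    have h1 : ∀ x, ze (μ x u + μ u x) + ze x * ze u = 0 := fun x => by
      rw [← hSfa, hu, LinearMap.zero_apply]
    have h2 := h1 z
    rw [H.right hn h u, H.left hn h hN u, add_zero, map_zero, hze, zero_add, one_mul] at h2
    have h3 : ∀ x, μ u x + μ x u = 0 := by
      intro x
      have h4 := h1 x
      rw [h2, mul_zero, add_zero, add_comm] at h4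
      rw [hsym u x, h4, zero_smul]
    obtain ⟨k, rfl⟩ := H.hb u h3
    rw [map_smul, hze, smul_eq_mul, mul_one] at h2
    rw [h2, zero_smul]
  have hfr : finrank ℂ (Fin n → ℂ) = finrank ℂ ((Fin n → ℂ) →ₗ[ℂ] ℂ) :=
    (Subspace.dual_finrank_eq (K := ℂ) (V := Fin n → ℂ)).symm
  set E := LinearEquiv.ofInjectiveOfFinrankEq Sf hinj hfr with hE
  have hEa : ∀ u, E u = Sf u := fun u => rfl
  set G : (Fin n → ℂ) →ₗ[ℂ] ((Fin n → ℂ) →ₗ[ℂ] ℂ) :=
    (LinearMap.mk₂ ℂ (fun y x => ze (μ x y))
      (fun y y' x => by simp only [map_add])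
      (fun c y x => by simp only [map_smul])
      (fun y x x' => by simp only [map_add, LinearMap.add_apply])
      (fun c y x => by simp only [map_smul, LinearMap.smul_apply])) with hG
  have hGa : ∀ y x, G y x = ze (μ x y) := fun y x => rfl
  have key : ∀ y x, ze (μ x (E.symm (G y)) + μ (E.symm (G y)) x) + ze x * ze (E.symm (G y))
      = ze (μ x y) := by
    intro y x
    rw [← hSfa, ← hEa, LinearEquiv.apply_symm_apply, hGa]
  have hz : ∀ y, ze (E.symm (G y)) = 0 := by
    intro y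
    have h1 := key y z
    rwa [H.right hn h _, H.left hn h hN _, H.left hn h hN _, add_zero, map_zero, hze, zero_add,
      one_mul] at h1
  refine ⟨E.symm.toLinearMap ∘ₗ G, hz, fun x y => ?_⟩
  have h1 := key y x
  rw [hz y, mul_zero, add_zero] at h1
  change μ x (E.symm (G y)) + μ (E.symm (G y)) x = _
  rw [hsym, h1]

/-- nilpotent Leibniz algebras of metric type have a line of non-nilpotent deformations -/
theorem Met.defo {z : Fin n → ℂ} (H : Met μ z) (hn : 2 ≤ n) (h : Leib μ) (hN : Nilp μ) :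
    Defo μ := by
  obtain ⟨ze, hze⟩ := exists_functional H.h0
  obtain ⟨c, hc0, hc1⟩ := H.exists_c hn h hN ze hze
  have hxz := H.right hn h
  have hzx := H.left hn h hN
  have hsym : ∀ x y, μ x y + μ y x = ze (μ x y + μ y x) • z := by
    intro x y
    obtain ⟨k, hk⟩ := H.ha x y
    rw [hk, map_smul, hze, smul_eq_mul, mul_one]
  -- uniqueness
  have huniq : ∀ u, ze u = 0 → (∀ w, ze (μ w u + μ u w) = 0) → u = 0 := by
    intro u hu1 hu2
    obtain ⟨k, rfl⟩ := H.hb u (fun w => by rw [add_comm, hsym, hu2, zero_smul])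
    rw [map_smul, hze, smul_eq_mul, mul_one] at hu1
    rw [hu1, zero_smul]
  have hc2 : ∀ x y, ze (μ x (c y) + μ (c y) x) = ze (μ x y) := by
    intro x y
    rw [hc1, map_smul, hze, smul_eq_mul, mul_one]
  -- invariance
  have hinv : ∀ w u y, ze (μ w (μ u y) + μ (μ u y) w) = - ze (μ (μ w y) u + μ u (μ w y)) := by
    intro w u y
    have e1 := h w u y
    have e2 := h u w y
    have e3 : μ (μ w u + μ u w) y = 0 := by rw [hsym, map_smul, LinearMap.smul_apply, hzx, smul_zero]
    rw [map_add, LinearMap.add_apply, e1, e2] at e3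
    have e4 : (μ w (μ u y) + μ (μ u y) w) + (μ (μ w y) u + μ u (μ w y)) = 0 := by
      rw [← e3]; abel
    have e5 := congrArg ze e4
    rw [map_add, map_zero] at e5
    exact eq_neg_of_add_eq_zero_left e5
  have hcz : c z = 0 := by
    refine huniq _ (hc0 z) (fun w => ?_)
    rw [hc2, hxz, map_zero]
  -- the cocycle identity
  have hcc : ∀ x y, c (μ x y) = μ (c x) y - μ (c y) x := by
    intro x y
    refine sub_eq_zero.mp (huniq _ ?_ (fun w => ?_))
    · have e1 := hc2 (c x) y
      have e2 := hc2 (c y) x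
      rw [map_sub, map_sub, hc0, ← e1, ← e2, add_comm (μ (c x) (c y))]
      ring
    · have e1 := hc2 w (μ x y)
      have e2 := hinv w (c x) y
      have e3 := hinv w (c y) x
      have e4 := hc2 (μ w y) x
      have e5 := hc2 (μ w x) y
      have e6 := congrArg ze (h w x y)
      rw [map_add] at e1 e2 e3 e4 e5 e6
      simp only [map_add, map_sub, LinearMap.sub_apply] at e1 e2 e3 e4 e5 e6 ⊢
      linear_combination e1 - e2 + e3 + e4 - e5 - e6
  -- the eigenfunctional
  set W : Submodule ℂ ((Fin n → ℂ) →ₗ[ℂ] ℂ) :=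
    { carrier := {f | ∀ x y, f (μ x y) = 0}
      add_mem' := by
        intro a b ha hb x y
        rw [LinearMap.add_apply, ha, hb, add_zero]
      zero_mem' := by intro x y; rfl
      smul_mem' := by
        intro k a ha x y
        rw [LinearMap.smul_apply, ha, smul_zero] } with hW
  have hWm : ∀ f, f ∈ W ↔ ∀ x y, f (μ x y) = 0 := fun f => Iff.rfl
  have hWc : ∀ f ∈ W, f ∘ₗ c ∈ W := by
    intro f hf x y
    rw [LinearMap.comp_apply, hcc, map_sub, (hWm f).mp hf, (hWm f).mp hf, sub_zero]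
  set T : W →ₗ[ℂ] W :=
    { toFun := fun f => ⟨f.1 ∘ₗ c, hWc f.1 f.2⟩
      map_add' := by intro a b; rfl
      map_smul' := by intro k a; rfl } with hT
  obtain ⟨f0, hf0, hf0m⟩ := exists_lam (by omega) hN
  have hnt : Nontrivial W := ⟨⟨⟨f0, hf0m⟩, 0, fun hcon => hf0 (congrArg Subtype.val hcon)⟩⟩
  obtain ⟨al, hal⟩ := Module.End.exists_eigenvalue T
  obtain ⟨f, hf⟩ := hal.exists_hasEigenvector
  have hf1 := hf.apply_eq_smul
  have hfne : f.1 ≠ 0 := fun hcon => hf.2 (Subtype.ext hcon)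
  have hfc : ∀ x, f.1 (c x) = al * f.1 x := by
    intro x
    have := LinearMap.congr_fun (congrArg Subtype.val hf1) x
    exact this
  have hfm : ∀ x y, f.1 (μ x y) = 0 := f.2
  have hfz : f.1 z = 0 := by
    obtain ⟨a, b, k, hk⟩ := H.exists_sym hn
    rw [hk, map_smul, map_add, hfm, hfm, add_zero, smul_zero]
  -- the derivation
  set D : (Fin n → ℂ) →ₗ[ℂ] (Fin n → ℂ) := c + ze.smulRight z with hDd
  have hDa : ∀ x, D x = c x + ze x • z := fun x => rfl
  have hDz : D z = z := by rw [hDa, hcz, hze, one_smul, zero_add]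
  refine defo_of_datum h hN (lam := f.1) (D := D) (c := c) (al := al) ⟨?_, hcc, ?_, hfm, ?_, hfc,
    ?_, ?_⟩ hfne ?_
  · intro x y
    rw [hDa, hDa, hDa, hcc]
    simp only [map_add, map_smul, LinearMap.add_apply, LinearMap.smul_apply, hzx, hxz, smul_zero,
      add_zero]
    have e1 := hc1 x y
    rw [← e1]
    abel
  · intro x y
    rw [hDa, map_add, map_smul, hxz, smul_zero, add_zero]
  · intro x
    rw [hDa, map_add, map_smul, hfz, smul_zero, add_zero, hfc]
  · intro x
    rw [hDa, hc0, zero_smul, add_zero]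
  · intro x
    rw [hDa, map_add, map_smul, hcz, smul_zero, add_zero]
  · intro m
    refine ⟨z, hfz, ?_⟩
    have : ∀ j : ℕ, (D ^ j) z = z := by
      intro j
      induction j with
      | zero => rfl
      | succ j ih => rw [pow_succ', Module.End.mul_apply, ih, hDz]
    rw [this]
    exact H.h0

end Pool.H60VM
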