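import Pool.Agent.H3.VG.Main

/-!
# Class two products in coordinates
-/

set_option autoImplicit false

namespace Pool.H60VM

open Module Pool.H3VG

variable {n : ℕ} {μ : Alg n}

/-- a rigid product: some polynomial is nonzero at it, and every Leibniz product at which that
polynomial is nonzero is isomorphic to it -/
theorem rigid_poly (hR : Rigid μ) (h : Leib μ) :
    ∃ p : MvPolynomial (Fin n × Fin n × Fin n) ℂ, MvPolynomial.eval (sc μ) p ≠ 0 ∧
      ∀ ν : Alg n, Leib ν → MvPolynomial.eval (sc ν) p ≠ 0 → Iso μ ν := by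
  obtain ⟨P, hP⟩ := hR
  have h2 : ¬ ∀ p ∈ P, MvPolynomial.eval (sc μ) p = 0 := by
    intro h3
    exact ((hP μ h).mpr h3) (Iso.refl μ)
  push Not at h2
  obtain ⟨p, hp, hpμ⟩ := h2
  refine ⟨p, hpμ, fun ν hν hpν => ?_⟩
  by_contra hI
  exact hpν ((hP ν hν).mp hI p hp)

/-- the bilinear map with coefficients `b` -/
noncomputable def B {d k : ℕ} (b : Fin d → Fin d → Fin k → ℂ) :
    (Fin d → ℂ) →ₗ[ℂ] (Fin d → ℂ) →ₗ[ℂ] (Fin k → ℂ) :=
  LinearMap.mk₂ ℂ (fun u v l => ∑ i, ∑ j, u i * v j * b i j l)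
    (fun u u' v => by
      funext l
      simp only [Pi.add_apply, add_mul, Finset.sum_add_distrib])
    (fun c u v => by
      funext l
      simp only [Pi.smul_apply, smul_eq_mul, Finset.mul_sum, mul_assoc])
    (fun u v v' => by
      funext l
      simp only [Pi.add_apply, mul_add, add_mul, Finset.sum_add_distrib])
    (fun c u v => by
      funext l
      simp only [Pi.smul_apply, smul_eq_mul, Finset.mul_sum]
      refine Finset.sum_congr rfl fun i _ => Finset.sum_congr rfl fun j _ => ?_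
      ring)

theorem B_apply {d k : ℕ} (b : Fin d → Fin d → Fin k → ℂ) (u v : Fin d → ℂ) (l : Fin k) :
    B b u v l = ∑ i, ∑ j, u i * v j * b i j l := rfl

theorem B_single {d k : ℕ} (b : Fin d → Fin d → Fin k → ℂ) (i j : Fin d) (l : Fin k) :
    B b (Pi.single i 1) (Pi.single j 1) l = b i j l := by
  rw [B_apply, Finset.sum_eq_single i, Finset.sum_eq_single j]
  · simp
  · intro j' _ hj'
    simp [hj']
  · simp
  · intro i' _ hi'
    simp [hi']
  · simp

/-- the product on `ℂ^n` with coefficients `b` in the coordinates `φ` -/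
noncomputable def nu {d k : ℕ} (φ : (Fin n → ℂ) ≃ₗ[ℂ] (Fin d → ℂ) × (Fin k → ℂ))
    (b : Fin d → Fin d → Fin k → ℂ) : Alg n :=
  LinearMap.mk₂ ℂ (fun x y => φ.symm (0, B b (φ x).1 (φ y).1))
    (fun x x' y => by
      rw [← map_add]
      congr 1
      simp only [map_add, Prod.fst_add, LinearMap.add_apply, Prod.mk_add_mk, add_zero])
    (fun c x y => by
      rw [← map_smul]
      congr 1
      simp only [map_smul, Prod.smul_fst, LinearMap.smul_apply, Prod.smul_mk, smul_zero])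
    (fun x y y' => by
      rw [← map_add]
      congr 1
      simp only [map_add, Prod.fst_add, Prod.mk_add_mk, add_zero])
    (fun c x y => by
      rw [← map_smul]
      congr 1
      simp only [map_smul, Prod.smul_fst, Prod.smul_mk, smul_zero])

variable {d k : ℕ} (φ : (Fin n → ℂ) ≃ₗ[ℂ] (Fin d → ℂ) × (Fin k → ℂ))

theorem nu_apply (b : Fin d → Fin d → Fin k → ℂ) (x y : Fin n → ℂ) :
    nu φ b x y = φ.symm (0, B b (φ x).1 (φ y).1) := rfl

theorem nu_nu_left (b : Fin d → Fin d → Fin k → ℂ) (x y z : Fin n → ℂ) :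
    nu φ b (nu φ b x y) z = 0 := by
  rw [nu_apply, nu_apply, LinearEquiv.apply_symm_apply]
  simp only [map_zero, LinearMap.zero_apply]
  exact map_zero φ.symm

theorem nu_nu_right (b : Fin d → Fin d → Fin k → ℂ) (x y z : Fin n → ℂ) :
    nu φ b x (nu φ b y z) = 0 := by
  rw [nu_apply, nu_apply, LinearEquiv.apply_symm_apply]
  simp only [map_zero]
  exact map_zero φ.symm

theorem leib_nu (b : Fin d → Fin d → Fin k → ℂ) : Leib (nu φ b) := by
  intro x y z
  rw [nu_nu_left, nu_nu_left, nu_nu_right, add_zero]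

/-- isomorphism with a member of the family -/
theorem iso_nu {b₀ b : Fin d → Fin d → Fin k → ℂ} (hb₀ : nu φ b₀ = μ)
    (hI : Iso μ (nu φ b)) :
    ∃ (a : (Fin d → ℂ) →ₗ[ℂ] (Fin d → ℂ)) (c : (Fin k → ℂ) →ₗ[ℂ] (Fin k → ℂ)),
      ∀ u v, B b u v = c (B b₀ (a u) (a v)) := by
  obtain ⟨g, hg⟩ := hI
  refine ⟨LinearMap.fst ℂ _ _ ∘ₗ φ.toLinearMap ∘ₗ g.symm.toLinearMap ∘ₗ φ.symm.toLinearMap ∘ₗ
    LinearMap.inl ℂ _ _, LinearMap.snd ℂ _ _ ∘ₗ φ.toLinearMap ∘ₗ g.toLinearMap ∘ₗ
    φ.symm.toLinearMap ∘ₗ LinearMap.inr ℂ _ _, fun u v => ?_⟩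
  have h2 := hg (g.symm (φ.symm (u, 0))) (g.symm (φ.symm (v, 0)))
  rw [LinearEquiv.apply_symm_apply, LinearEquiv.apply_symm_apply, nu_apply,
    LinearEquiv.apply_symm_apply, LinearEquiv.apply_symm_apply, ← hb₀, nu_apply] at h2
  have h3 := congrArg φ h2
  rw [LinearEquiv.apply_symm_apply] at h3
  exact congrArg Prod.snd h3

end Pool.H60VM
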