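import Pool.Agent.H60.VM.Dim

/-!
# Bilinear forms: `tr (M⁻¹ Mᵀ)` is not constant
-/

set_option autoImplicit false

namespace Pool.H60VM

open Module Pool.H3VG Matrix

variable {d : ℕ}

/-- `tr (adj M * Mᵀ)` -/
noncomputable def tt {R : Type} [CommRing R] (M : Matrix (Fin d) (Fin d) R) : R :=
  Matrix.trace (Matrix.adjugate M * Mᵀ)

theorem tt_trans (hd : 1 ≤ d) (M₀ A : Matrix (Fin d) (Fin d) ℂ) (γ : ℂ) :
    tt (γ • (Aᵀ * M₀ * A)) = γ ^ d * A.det ^ 2 * tt M₀ := by
  have h1 : Matrix.adjugate (γ • (Aᵀ * M₀ * A)) * (γ • (Aᵀ * M₀ * A))ᵀ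
      = (γ ^ d * A.det) • (Matrix.adjugate A * (Matrix.adjugate M₀ * M₀ᵀ) * A) := by
    rw [Matrix.adjugate_smul, Matrix.adjugate_mul_distrib, Matrix.adjugate_mul_distrib,
      Matrix.transpose_smul, Matrix.transpose_mul, Matrix.transpose_mul, Matrix.transpose_transpose,
      Fintype.card_fin, Matrix.smul_mul, Matrix.mul_smul, smul_smul]
    have h2 : Matrix.adjugate A * (Matrix.adjugate M₀ * Matrix.adjugate Aᵀ) * (Aᵀ * (M₀ᵀ * A))
        = Matrix.adjugate A * (Matrix.adjugate M₀ * ((Matrix.adjugate Aᵀ * Aᵀ) * (M₀ᵀ * A))) := by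
      simp only [Matrix.mul_assoc]
    rw [h2, Matrix.adjugate_mul, Matrix.det_transpose, Matrix.smul_mul, Matrix.one_mul,
      Matrix.mul_smul, Matrix.mul_smul, smul_smul]
    congr 1
    · rw [← pow_succ, Nat.sub_add_cancel hd]
    · simp only [Matrix.mul_assoc]
  rw [tt, h1, Matrix.trace_smul, Matrix.trace_mul_comm, ← Matrix.mul_assoc, Matrix.mul_adjugate,
    Matrix.smul_mul, Matrix.one_mul, Matrix.trace_smul, tt, smul_eq_mul, smul_eq_mul]
  ring

theorem det_trans (M₀ A : Matrix (Fin d) (Fin d) ℂ) (γ : ℂ) :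
    (γ • (Aᵀ * M₀ * A)).det = γ ^ d * A.det ^ 2 * M₀.det := by
  rw [Matrix.det_smul, Matrix.det_mul, Matrix.det_mul, Matrix.det_transpose, Fintype.card_fin]
  ring

/-- the line of matrices over the polynomial ring -/
noncomputable def pm (M₀ M₁ : Matrix (Fin d) (Fin d) ℂ) :
    Matrix (Fin d) (Fin d) (Polynomial ℂ) :=
  fun i j => Polynomial.C (M₀ i j) + Polynomial.X * Polynomial.C (M₁ i j - M₀ i j)

theorem eval_pm (M₀ M₁ : Matrix (Fin d) (Fin d) ℂ) (t : ℂ) :
    (Polynomial.evalRingHom t).mapMatrix (pm M₀ M₁) = M₀ + t • (M₁ - M₀) := by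
  ext i j
  simp [pm, Matrix.map_apply, RingHom.mapMatrix_apply]

theorem eval_det (M₀ M₁ : Matrix (Fin d) (Fin d) ℂ) (t : ℂ) :
    (pm M₀ M₁).det.eval t = (M₀ + t • (M₁ - M₀)).det := by
  rw [← eval_pm, ← RingHom.map_det]
  rfl

theorem eval_tt (M₀ M₁ : Matrix (Fin d) (Fin d) ℂ) (t : ℂ) :
    (tt (pm M₀ M₁)).eval t = tt (M₀ + t • (M₁ - M₀)) := by
  rw [← eval_pm, tt, tt, ← RingHom.map_adjugate]
  have h1 : ((Polynomial.evalRingHom t).mapMatrix (pm M₀ M₁))ᵀ
      = (Polynomial.evalRingHom t).mapMatrix ((pm M₀ M₁)ᵀ) := rfl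
  rw [h1, ← map_mul, RingHom.mapMatrix_apply, Matrix.trace, Matrix.trace]
  change (Polynomial.evalRingHom t) _ = _
  rw [map_sum]
  rfl

theorem tt_one : tt (1 : Matrix (Fin d) (Fin d) ℂ) = d := by
  rw [tt, Matrix.adjugate_one, Matrix.transpose_one, Matrix.one_mul, Matrix.trace_one,
    Fintype.card_fin]

theorem tt_transvection {i j : Fin d} (hij : i ≠ j) :
    tt (Matrix.transvection i j (1 : ℂ)) = d - 1 := by
  have hdet : (Matrix.transvection i j (1 : ℂ)).det = 1 := Matrix.det_transvection_of_ne i j hij 1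
  have hadj : Matrix.adjugate (Matrix.transvection i j (1 : ℂ)) = Matrix.transvection i j (-1) := by
    have h1 := Matrix.mul_adjugate (Matrix.transvection i j (1 : ℂ))
    rw [hdet, one_smul] at h1
    have h2 : Matrix.transvection i j (-1 : ℂ) * Matrix.transvection i j 1 = 1 := by
      rw [Matrix.transvection_mul_transvection_same i j hij]
      simp
    calc Matrix.adjugate (Matrix.transvection i j (1 : ℂ))
        = (Matrix.transvection i j (-1 : ℂ) * Matrix.transvection i j 1)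
          * Matrix.adjugate (Matrix.transvection i j (1 : ℂ)) := by rw [h2, Matrix.one_mul]
      _ = Matrix.transvection i j (-1) := by rw [Matrix.mul_assoc, h1, Matrix.mul_one]
  rw [tt, hadj]
  simp only [Matrix.transvection, Matrix.transpose_add, Matrix.transpose_one,
    Matrix.transpose_single, Matrix.mul_add, Matrix.add_mul, Matrix.mul_one, Matrix.one_mul,
    Matrix.trace_add, Matrix.trace_one, Fintype.card_fin, Matrix.single_mul_single_same]
  rw [Matrix.trace_single_eq_of_ne _ _ _ hij, Matrix.trace_single_eq_of_ne _ _ _ hij.symm,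
    Matrix.trace_single_eq_same]
  ring

theorem tr_case (hd : 2 ≤ d) (b₀ : Fin d → Fin d → Fin 1 → ℂ)
    (U : Set (Fin d → Fin d → Fin 1 → ℂ)) (hU : IsOpen U) (hb₀ : b₀ ∈ U)
    (hrel : ∀ b ∈ U, ∃ (a : (Fin d → ℂ) →ₗ[ℂ] (Fin d → ℂ)) (c : (Fin 1 → ℂ) →ₗ[ℂ] (Fin 1 → ℂ)),
      ∀ u v, B b u v = c (B b₀ (a u) (a v))) : False := by
  set M₀ : Matrix (Fin d) (Fin d) ℂ := fun i j => b₀ i j 0 with hM₀
  -- the line towards `M₁`
  have hline : ∀ M₁ : Matrix (Fin d) (Fin d) ℂ, Set.Infinite
      {t : ℂ | ∃ (γ : ℂ) (A : Matrix (Fin d) (Fin d) ℂ),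
        M₀ + t • (M₁ - M₀) = γ • (Aᵀ * M₀ * A)} := by
    intro M₁
    set L : ℂ → (Fin d → Fin d → Fin 1 → ℂ) := fun t i j l =>
      b₀ i j l + t * (M₁ i j - b₀ i j l) with hL
    have hLc : Continuous L := by
      refine continuous_pi fun i => continuous_pi fun j => continuous_pi fun l => ?_
      exact continuous_const.add (continuous_id.mul continuous_const)
    have hL0 : L 0 = b₀ := by
      funext i j l
      simp [hL]
    have hV : L ⁻¹' U ∈ nhds (0 : ℂ) := by
      apply (hU.preimage hLc).mem_nhds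
      rw [Set.mem_preimage, hL0]
      exact hb₀
    refine (infinite_of_mem_nhds 0 hV).mono ?_
    intro t ht
    obtain ⟨a, c, h⟩ := hrel _ ht
    have h1 := tr_of_rel a c h
    refine ⟨c (Pi.single 0 1) 0, fun i j => a (Pi.single j 1) i, ?_⟩
    ext i j
    have h2 := congrFun (congrFun (congrFun h1 i) j) 0
    simp only [hL, tr, Fin.sum_univ_one, Fin.isValue] at h2
    rw [Matrix.add_apply, Matrix.smul_apply, Matrix.sub_apply, smul_eq_mul]
    simp only [hM₀]
    rw [h2, Matrix.smul_apply, Matrix.mul_apply]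
    simp only [Matrix.mul_apply, Matrix.transpose_apply, smul_eq_mul, Finset.sum_mul,
      Finset.mul_sum]
    rw [Finset.sum_comm]
    refine Finset.sum_congr rfl fun j' _ => Finset.sum_congr rfl fun i' _ => ?_
    ring
  -- the identity
  have hid : ∀ M₁ : Matrix (Fin d) (Fin d) ℂ, tt M₁ * M₀.det = tt M₀ * M₁.det := by
    intro M₁
    have h1 : tt (pm M₀ M₁) * Polynomial.C M₀.det - Polynomial.C (tt M₀) * (pm M₀ M₁).det = 0 := by
      apply Polynomial.eq_zero_of_infinite_isRoot
      refine (hline M₁).mono ?_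
      rintro t ⟨γ, A, h⟩
      change Polynomial.eval t _ = 0
      rw [Polynomial.eval_sub, Polynomial.eval_mul, Polynomial.eval_mul, Polynomial.eval_C,
        Polynomial.eval_C, eval_det, eval_tt, h, tt_trans (by omega), det_trans]
      ring
    have h2 := congrArg (Polynomial.eval 1) h1
    rw [Polynomial.eval_sub, Polynomial.eval_mul, Polynomial.eval_mul, Polynomial.eval_C,
      Polynomial.eval_C, eval_det, eval_tt, Polynomial.eval_zero, one_smul, add_sub_cancel] at h2
    exact sub_eq_zero.mp h2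
  -- nondegeneracy
  have hdet : M₀.det ≠ 0 := by
    intro h0
    have h1 : (pm M₀ 1).det = 0 := by
      apply Polynomial.eq_zero_of_infinite_isRoot
      refine (hline 1).mono ?_
      rintro t ⟨γ, A, h⟩
      change Polynomial.eval t _ = 0
      rw [eval_det, h, det_trans, h0, mul_zero]
    have h2 := congrArg (Polynomial.eval 1) h1
    rw [eval_det, Polynomial.eval_zero, one_smul, add_sub_cancel, Matrix.det_one] at h2
    exact one_ne_zero h2
  have e1 := hid 1
  have hij : (⟨0, by omega⟩ : Fin d) ≠ ⟨1, by omega⟩ := by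
    intro h
    have := congrArg Fin.val h
    simp at this
  have e2 := hid (Matrix.transvection ⟨0, by omega⟩ ⟨1, by omega⟩ 1)
  rw [tt_one, Matrix.det_one, mul_one] at e1
  rw [tt_transvection hij, Matrix.det_transvection_of_ne _ _ hij, mul_one] at e2
  apply hdet
  linear_combination e1 - e2

end Pool.H60VM
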